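import Pool.Agent.K7.H62.UI.Col1

/-!
# Project UI, job COL: the step of the row hubs
-/

set_option autoImplicit false

namespace Pool.Agent.K7.H62.UI

open Pool.Agent.K7.H12.UI

/-- an injection of a block into the next one (as in project FI, helper54) -/
theorem exists_pi {m : ℕ} (blk : ℕ → ℕ) (c n : ℕ) (j j' : Fin m) (hj : blk j = c)
    (hj' : blk j' = c + 1) (h1 : {a : ℕ | a < m ∧ blk a = c}.ncard = n)
    (h2 : {a : ℕ | a < m ∧ blk a = c + 1}.ncard = n + 1) :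
    ∃ π : Fin m → Fin m, π j = j' ∧ Set.InjOn π {a : Fin m | blk a = c} ∧
      ∀ a : Fin m, blk a = c → blk (π a) = c + 1 := by
  classical
  have hcard : ∀ c : ℕ, {a : ℕ | a < m ∧ blk a = c}.ncard =
      (Finset.univ.filter fun a : Fin m => blk a = c).card := by
    intro c
    have : {a : ℕ | a < m ∧ blk a = c} =
        Fin.val '' ((Finset.univ.filter fun a : Fin m => blk a = c : Finset (Fin m)) :
          Set (Fin m)) := by
      ext a
      simp only [Set.mem_setOf_eq, Set.mem_image, Finset.mem_coe, Finset.mem_filter,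
        Finset.mem_univ, true_and]
      constructor
      · rintro ⟨ha, hb⟩
        exact ⟨⟨a, ha⟩, hb, rfl⟩
      · rintro ⟨x, hx, rfl⟩
        exact ⟨x.2, hx⟩
    rw [this, Set.ncard_image_of_injective _ Fin.val_injective, Set.ncard_coe_finset]
  obtain ⟨S, hS⟩ : ∃ S, S = (Finset.univ.filter fun a : Fin m => blk a = c).erase j := ⟨_, rfl⟩
  obtain ⟨T, hT⟩ : ∃ T, T = (Finset.univ.filter fun a : Fin m => blk a = c + 1).erase j' :=
    ⟨_, rfl⟩
  have hSc : S.card = n - 1 := by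
    rw [hS, Finset.card_erase_of_mem (by simp [hj]), ← hcard, h1]
  have hTc : T.card = n := by
    rw [hT, Finset.card_erase_of_mem (by simp [hj']), ← hcard, h2]
    rfl
  have hTm : ∀ a ∈ T, a ≠ j' ∧ blk a = c + 1 := by
    intro a ha
    rw [hT, Finset.mem_erase, Finset.mem_filter] at ha
    exact ⟨ha.1, ha.2.2⟩
  obtain ⟨e⟩ : Nonempty (S ↪ T) := by
    apply Function.Embedding.nonempty_of_card_le
    simp only [Fintype.card_coe]
    omega
  refine ⟨fun a => if a = j then j' else if ha : a ∈ S then (e ⟨a, ha⟩ : Fin m) else a,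
    by simp, ?_, ?_⟩
  · intro a ha a2 ha2 haa
    have mS : ∀ a : Fin m, blk a = c → a ≠ j → a ∈ S := by
      intro a ha haj
      rw [hS]
      simp [ha, haj]
    have hne : ∀ s : S, (e s : Fin m) ≠ j' := by
      intro s
      exact (hTm _ (e s).2).1
    by_cases e1 : a = j
    · by_cases e2 : a2 = j
      · rw [e1, e2]
      · have m2 := mS a2 ha2 e2
        simp only [e1, if_true, if_neg e2, dif_pos m2] at haa
        exact absurd haa.symm (hne _)
    · have m1 := mS a ha e1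
      by_cases e2 : a2 = j
      · simp only [if_neg e1, dif_pos m1, e2, if_true] at haa
        exact absurd haa (hne _)
      · have m2 := mS a2 ha2 e2
        simp only [if_neg e1, dif_pos m1, if_neg e2, dif_pos m2] at haa
        have := e.injective (Subtype.ext haa)
        exact congrArg Subtype.val this
  · intro a ha
    by_cases e1 : a = j
    · simp only [e1, if_true]
      exact hj'
    · have m1 : a ∈ S := by
        rw [hS]
        simp [ha, e1]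
      simp only [if_neg e1, dif_pos m1]
      exact (hTm _ (e ⟨a, m1⟩).2).2

/-- COL, part 3 -/
theorem colT (hSL : StSL) (hSize : StSize) : StColT := by
  classical
  intro X _ F R
  obtain ⟨C, hC, A2, hA2⟩ := hSize
  refine ⟨5 * C, by positivity, A2 + 1, ?_⟩
  intro P B hOk p q hrow hcol c c' l hl hcp hcq hcc Q hbQ hzQ hzQ'
  obtain ⟨-, hn0, hbB, S1, -, hrm, S2, S3, -⟩ := hA2 P B (ok_mono hOk (by omega))
  obtain ⟨hr1, hb1, hB1⟩ := ok_pos hOk (by omega)
  have hrR : (1 : ℝ) ≤ P.r := by exact_mod_cast hr1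
  have hBR : (1 : ℝ) ≤ B := by exact_mod_cast hB1
  have hjne : p.1.2 ≠ q.1.2 := fun e => by rw [e] at hcol; omega
  have hpq : p ≠ q := fun e => hjne (by rw [e])
  have hvv : (bk p : Vt P) ≠ bk q := fun e => hpq (bk_inj e)
  have hzz : (tt c l : Vt P) ≠ tt c' l := fun e => hcc (tt_inj e).1
  haveI : Nonempty (Vt P) := ⟨bk p⟩
  have hc1 : P.blk q.1.2 = P.blk p.1.2 + 1 := by
    have h1 := hOk.blk_mono p.1.2 (by rw [hcol]; exact q.1.2.2)
    rw [hcol] at h1
    rcases h1 with h1 | h1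
    · exact absurd (Fin.ext (by rw [← hcp, ← hcq, h1])) hcc
    · exact h1
  have hc'1 : (c' : ℕ) = c + 1 := by rw [← hcq, hc1, hcp]
  obtain ⟨π, hπj, hπi, hπb⟩ := exists_pi P.blk (P.blk p.1.2) (B + P.blk p.1.2) p.1.2 q.1.2 rfl hc1
    (hOk.blk_card _ (by rw [hcp]; exact c.2))
    (by rw [hOk.blk_card _ (by rw [hcp, ← hc'1]; exact c'.2)]; ring)
  obtain ⟨U, hU⟩ : ∃ U : Set (Vt P), U = (nb (gph P) (tt c l) ∩ nb (gph P) (tt c' l)) \
    {bk p, bk q, tt c l, tt c' l} := ⟨_, rfl⟩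
  obtain ⟨I, hI⟩ : ∃ I : Finset (Bk P), ∀ p1, p1 ∈ I ↔
      (P.blk p1.1.2 = c ∧ (l : ℕ) < p1.1.1 ∧ p1 ≠ p) := by
    refine ⟨(Set.toFinite {p1 : Bk P | P.blk p1.1.2 = c ∧ (l : ℕ) < p1.1.1 ∧ p1 ≠ p}).toFinset,
      fun y => ?_⟩
    rw [Set.Finite.mem_toFinset]
    rfl
  -- the shifted vertices
  have hsh : ∀ p1 : Bk P, (l : ℕ) < p1.1.1 → ∃ p2 : Bk P, shb (π p1.1.2) p1 = bk p2 ∧
      p2.1.1 = p1.1.1 ∧ p2.1.2 = π p1.1.2 := by
    intro p1 hp1
    have h : (p1.1.1 : ℕ) = 0 → P.m ≤ 2 * ((π p1.1.2 : Fin P.m) : ℕ) := by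
      intro h0
      omega
    exact ⟨⟨(p1.1.1, π p1.1.2), h⟩, shb_eq _ _ h, rfl, rfl⟩
  have hext : ∀ p1 p2 : Bk P, p1.1.1 = p2.1.1 → p1.1.2 = p2.1.2 → p1 = p2 := by
    intro p1 p2 h1 h2
    exact Subtype.ext (Prod.ext h1 h2)
  have hrow' : p.1.1 = q.1.1 := Fin.ext hrow
  have hπc : ∀ p1 : Bk P, P.blk p1.1.2 = c → P.blk (π p1.1.2) = c' := by
    intro p1 h1
    rw [hπb _ (h1.trans hcp.symm), hcp, hc'1]
  have hπe : ∀ p1 p2 : Bk P, P.blk p1.1.2 = c → P.blk p2.1.2 = c → π p1.1.2 = π p2.1.2 →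
      p1.1.2 = p2.1.2 := by
    intro p1 p2 h1 h2 e
    exact hπi (show P.blk p1.1.2 = P.blk p.1.2 from h1.trans hcp.symm)
      (show P.blk p2.1.2 = P.blk p.1.2 from h2.trans hcp.symm) e
  have A1' : ∀ p1 ∈ I, bk p1 ∉ U ∧ shb (π p1.1.2) p1 ∉ U ∧ bk p1 ≠ bk p ∧
      shb (π p1.1.2) p1 ≠ bk p ∧ bk p1 ≠ bk q ∧ shb (π p1.1.2) p1 ≠ bk q ∧ bk p1 ≠ tt c l ∧
      shb (π p1.1.2) p1 ≠ tt c l ∧ bk p1 ≠ tt c' l ∧ shb (π p1.1.2) p1 ≠ tt c' l ∧
      (bk p1 ∈ Q ↔ shb (π p1.1.2) p1 ∈ Q) := by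
    intro p1 hp1
    obtain ⟨h1, h2, h3⟩ := (hI p1).1 hp1
    obtain ⟨p2, e2, r2, c2⟩ := hsh p1 h2
    have n1 : p1 ≠ q := fun e => by
      rw [e, hcq] at h1
      omega
    have n2 : p2 ≠ p := fun e => by
      have := hπc p1 h1
      rw [← c2, e, hcp] at this
      omega
    have n3 : p2 ≠ q := fun e => h3 (hext _ _ (by rw [← r2, e, hrow'])
      (hπe p1 p h1 hcp (by rw [← c2, e, hπj])))
    rw [e2]
    refine ⟨?_, ?_, fun e => h3 (bk_inj e), fun e => n2 (bk_inj e), fun e => n1 (bk_inj e),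
      fun e => n3 (bk_inj e), bk_ne_tt _ _ _, bk_ne_tt _ _ _, bk_ne_tt _ _ _, bk_ne_tt _ _ _,
      iff_of_true (hbQ _ h3 n1) (hbQ _ n2 n3)⟩
    · rw [hU]
      rintro ⟨⟨hm, -⟩, -⟩
      exact hm.2 ⟨h1, h2⟩
    · rw [hU]
      rintro ⟨⟨-, hm⟩, -⟩
      apply hm.2
      show P.blk p2.1.2 = c' ∧ (l : ℕ) < p2.1.1
      rw [c2, r2]
      exact ⟨hπc p1 h1, h2⟩
  have hmain := (hSL X (Vt P) F (gph P) R (bk p) (bk q) (tt c l) (tt c' l) hvv hzz (bk_ne_tt _ _ _)
    (bk_ne_tt _ _ _) (bk_ne_tt _ _ _) (bk_ne_tt _ _ _) Q hzQ hzQ' (Bk P) I bk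
    (fun p1 => shb (π p1.1.2) p1) U A1'
    (fun _ _ _ _ e => bk_inj e)
    (by
      intro p1 hp1 p2 hp2 e
      obtain ⟨h1, h1', -⟩ := (hI p1).1 (Finset.mem_coe.1 hp1)
      obtain ⟨h2, h2', -⟩ := (hI p2).1 (Finset.mem_coe.1 hp2)
      obtain ⟨p3, e3, r3, c3⟩ := hsh p1 h1'
      obtain ⟨p4, e4, r4, c4⟩ := hsh p2 h2'
      simp only at e
      rw [e3, e4] at e
      have e5 := bk_inj e
      exact hext _ _ (by rw [← r3, ← r4, e5]) (hπe p1 p2 h1 h2 (by rw [← c3, ← c4, e5])))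
    (by
      intro p1 hp1 p2 hp2 e
      obtain ⟨h1, h1', -⟩ := (hI p1).1 hp1
      obtain ⟨h2, h2', -⟩ := (hI p2).1 hp2
      obtain ⟨p4, e4, r4, c4⟩ := hsh p2 h2'
      rw [e4] at e
      have e5 := bk_inj e
      have := hπc p2 h2
      rw [← c4, ← e5, h1] at this
      omega)
    (by
      intro y hy hyv hyv' hyz
      by_cases hz1 : y ∈ nb (gph P) (tt c l)
      · left
        rw [hU]
        refine ⟨⟨hz1, hy⟩, ?_⟩
        rintro (e | e | e | e)
        exacts [hyv e, hyv' e, hyz e, hy.1 e.symm]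
      · right
        have h2 : Mis P (.t c l) (lab y) := by
          by_contra hn
          exact hz1 ⟨Ne.symm hyz, hn⟩
        have h1 : ¬ Mis P (.t c' l) (lab y) := hy.2
        rcases vt_cases y with ⟨p1, rfl⟩ | ⟨c2, l2, rfl⟩ | ⟨j2, rfl⟩
        · have h2' : P.blk p1.1.2 = c ∧ (l : ℕ) < p1.1.1 := h2
          exact ⟨p1, Finset.mem_coe.2 ((hI p1).2 ⟨h2'.1, h2'.2, fun e => hyv (by rw [e])⟩), rfl⟩
        · exact absurd h2 (fun hn => hn)
        · exact absurd trivial h1)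
    (by
      rintro y (hy | ⟨p1, hp1, rfl⟩) - - - -
      · rw [hU] at hy
        exact hy.1.1
      · obtain ⟨h1, h1', -⟩ := (hI p1).1 (Finset.mem_coe.1 hp1)
        obtain ⟨p4, e4, r4, c4⟩ := hsh p1 h1'
        simp only
        rw [e4, mem_nb]
        refine ⟨(bk_ne_tt _ _ _).symm, fun hn => ?_⟩
        have hn' : P.blk p4.1.2 = c ∧ (l : ℕ) < p4.1.1 := hn
        rw [c4, hπc p1 h1] at hn'
        omega)).1
  refine hmain.trans ?_
  -- the costs
  have hIc : ((I.card : ℕ) : ℝ) ≤ (P.r + 1) * (2 * B) := by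
    have h0 : (Finset.univ.filter fun a : Fin P.m => P.blk a = c).card ≤ 2 * B := by
      refine le_trans ?_ (S1 c)
      rw [← Set.ncard_coe_finset, ← Set.ncard_image_of_injective _ Fin.val_injective]
      apply Set.ncard_le_ncard
      · rintro _ ⟨b, hb, rfl⟩
        exact ⟨b.2, (Finset.mem_filter.1 (Finset.mem_coe.1 hb)).2⟩
      · exact (Set.finite_lt_nat P.m).subset fun b hb => hb.1
    have h1 : I.card ≤ ((Finset.univ : Finset (Fin (P.r + 1))) ×ˢ
        (Finset.univ.filter fun a : Fin P.m => P.blk a = c)).card := by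
      apply Finset.card_le_card_of_injOn (fun p1 : Bk P => (p1.1.1, p1.1.2))
      · intro p1 hp1
        rw [Finset.mem_coe, Finset.mem_product, Finset.mem_filter]
        exact ⟨Finset.mem_univ _, Finset.mem_univ _, ((hI p1).1 (Finset.mem_coe.1 hp1)).1⟩
      · intro p1 hp1 p2 hp2 e
        simp only [Prod.mk.injEq] at e
        exact hext _ _ e.1 e.2
    rw [Finset.card_product, Finset.card_univ, Fintype.card_fin] at h1
    have h2 : I.card ≤ (P.r + 1) * (2 * B) := h1.trans (Nat.mul_le_mul_left _ h0)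
    exact_mod_cast h2
  have hsum : (∑ i ∈ I, ((sd (gph P) (bk i) (shb (π i.1.2) i)).ncard : ℝ)) ≤
      (P.r + 1) * (2 * B) * (C * P.r) := by
    calc _ ≤ ∑ _i ∈ I, C * P.r := by
          refine Finset.sum_le_sum fun p1 hp1 => ?_
          obtain ⟨p2, e2, -⟩ := hsh p1 ((hI p1).1 hp1).2.1
          rw [e2]
          exact S2 p1 p2
      _ = (I.card : ℝ) * (C * P.r) := by rw [Finset.sum_const, nsmul_eq_mul]
      _ ≤ _ := mul_le_mul_of_nonneg_right hIc (by positivity)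
  have hsd := S3 c c' l l
  have hcost : (((sd (gph P) (tt c l) (tt c' l) : Set (Vt P)).ncard : ℝ) +
      ∑ i ∈ I, ((sd (gph P) (bk i) (shb (π i.1.2) i)).ncard : ℝ)) ≤
        5 * C * ((P.r : ℝ) ^ 2 * B) := by
    have e1 : C * (P.r * B) + (P.r + 1) * (2 * B) * (C * P.r) =
        C * ((2 * (P.r : ℝ) ^ 2 + 3 * P.r) * B) := by ring
    have e2 : (2 * (P.r : ℝ) ^ 2 + 3 * P.r) ≤ 5 * P.r ^ 2 := by nlinarith
    have e3 : C * ((2 * (P.r : ℝ) ^ 2 + 3 * P.r) * B) ≤ C * ((5 * P.r ^ 2) * B) := by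
      apply mul_le_mul_of_nonneg_left _ hC.le
      exact mul_le_mul_of_nonneg_right e2 (by positivity)
    linarith
  have h4 := mul_le_mul_of_nonneg_right hcost (err_nonneg X (Vt P) 4)
  exact add_le_add le_rfl h4

end Pool.Agent.K7.H62.UI
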