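import Pool.Agent.K7.H62.UI.ColMain
import Pool.Agent.K7.H62.UI.ColT

/-!
# Project UI, job COL
-/

set_option autoImplicit false

namespace Pool.Agent.K7.H62.UI

open Pool.Agent.K7.H12.UI

/-- JOB COL -/
theorem col (hDiff : StDiff) (hB : StBoth2) (hSplit : StSplit) (hSL : StSL) (hLB2 : StLB2)
    (hSize : StSize) : StCol :=
  col_of_parts (colE2 hB hSize) (colLast hSL hLB2 hSize) (colT hSL hSize) hDiff hSplit hSize

end Pool.Agent.K7.H62.UI
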