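import Pool.Agent.K7.H62.UI.ColDefs

/-!
# Project UI, job COL: the part with both vertices
-/

set_option autoImplicit false

namespace Pool.Agent.K7.H62.UI

open Pool.Agent.K7.H12.UI

theorem mem_nb {P : Par} (a c : Vt P) :
    c ∈ nb (gph P) a ↔ a ≠ c ∧ ¬ Mis P (lab a) (lab c) := Iff.rfl

theorem adj_iff {P : Par} (a c : Vt P) :
    (gph P).Adj a c ↔ a ≠ c ∧ ¬ Mis P (lab a) (lab c) := Iff.rfl

theorem vt_cases {P : Par} (y : Vt P) :
    (∃ p, y = bk p) ∨ (∃ c l, y = tt c l) ∨ ∃ j, y = ww j := by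
  rcases y with p | (⟨c, l⟩ | j)
  · exact Or.inl ⟨p, rfl⟩
  · exact Or.inr (Or.inl ⟨c, l, rfl⟩)
  · exact Or.inr (Or.inr ⟨j, rfl⟩)

theorem bk_inj {P : Par} {p q : Bk P} (h : bk p = bk q) : p = q := Sum.inl_injective h

theorem tt_inj {P : Par} {c c' : Fin P.b} {l l' : Fin P.r} (h : tt c l = tt c' l') :
    c = c' ∧ l = l' := by
  have h1 := Sum.inl_injective (Sum.inr_injective h)
  rw [Prod.mk.injEq] at h1
  exact h1

theorem ww_inj {P : Par} {j j' : Fin P.m} (h : (ww j : Vt P) = ww j') : j = j' :=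
  Sum.inr_injective (Sum.inr_injective h)

theorem bk_ne_tt {P : Par} (p : Bk P) (c : Fin P.b) (l : Fin P.r) : bk p ≠ tt c l :=
  fun h => by cases h

theorem bk_ne_ww {P : Par} (p : Bk P) (j : Fin P.m) : bk p ≠ ww j :=
  fun h => by cases h

theorem tt_ne_ww {P : Par} (c : Fin P.b) (l : Fin P.r) (j : Fin P.m) : (tt c l : Vt P) ≠ ww j :=
  fun h => by cases h

/-- the neighbours of `bk p` that are not neighbours of `bk q` -/
theorem k_iff {P : Par} (p q : Bk P) (hpq : p ≠ q) (hr : (p.1.1 : ℕ) = (q.1.1 : ℕ)) (y : Vt P) :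
    ((gph P).Adj (bk p) y ∧ ¬ (gph P).Adj (bk q) y ∧ y ≠ bk q) ↔
      ((∃ c1 l1, y = tt c1 l1 ∧ P.blk q.1.2 = c1 ∧ (l1 : ℕ) < q.1.1 ∧
        P.blk p.1.2 ≠ P.blk q.1.2) ∨ (y = ww q.1.2 ∧ p.1.2 ≠ q.1.2)) := by
  rcases vt_cases y with ⟨p1, rfl⟩ | ⟨c1, l1, rfl⟩ | ⟨j1, rfl⟩
  · constructor
    · rintro ⟨-, h2, h3⟩
      exfalso
      apply h2
      rw [adj_iff]
      exact ⟨fun e => h3 e.symm, fun hn => hn⟩
    · rintro (⟨c, l, h, -⟩ | ⟨h, -⟩)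
      · exact absurd h (bk_ne_tt _ _ _)
      · exact absurd h (bk_ne_ww _ _)
  · constructor
    · rintro ⟨h1, h2, -⟩
      left
      have h1' : ¬ (P.blk p.1.2 = c1 ∧ (l1 : ℕ) < p.1.1) := h1.2
      have h2' : P.blk q.1.2 = c1 ∧ (l1 : ℕ) < q.1.1 := by
        by_contra hn
        exact h2 ⟨bk_ne_tt _ _ _, hn⟩
      exact ⟨c1, l1, rfl, h2'.1, h2'.2, fun e => h1' ⟨e.trans h2'.1, by rw [hr]; exact h2'.2⟩⟩
    · rintro (⟨c, l, h, h2, h3, h4⟩ | ⟨h, -⟩)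
      · obtain ⟨rfl, rfl⟩ := tt_inj h
        refine ⟨⟨bk_ne_tt _ _ _, fun hn => ?_⟩, fun hn => hn.2 ⟨h2, h3⟩, (bk_ne_tt _ _ _).symm⟩
        have hn' : P.blk p.1.2 = c1 ∧ (l1 : ℕ) < p.1.1 := hn
        exact h4 (hn'.1.trans h2.symm)
      · exact absurd h (tt_ne_ww _ _ _)
  · constructor
    · rintro ⟨h1, h2, -⟩
      right
      have h1' : ¬ ((p.1.2 : ℕ) = j1) := h1.2
      have h2' : (q.1.2 : ℕ) = j1 := by
        by_contra hn
        exact h2 ⟨bk_ne_ww _ _, hn⟩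
      have e1 : j1 = q.1.2 := Fin.ext h2'.symm
      refine ⟨by rw [e1], fun e => h1' (by rw [e]; exact h2')⟩
    · rintro (⟨c, l, h, -⟩ | ⟨h, h'⟩)
      · exact absurd h.symm (tt_ne_ww _ _ _)
      · have e1 := ww_inj h
        subst e1
        refine ⟨⟨bk_ne_ww _ _, fun hn => ?_⟩, fun hn => hn.2 rfl, (bk_ne_ww _ _).symm⟩
        have hn' : (p.1.2 : ℕ) = (q.1.2 : ℕ) := hn
        exact h' (Fin.ext hn')

/-- the hub of `v` that replaces the hub -/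
def sw {P : Par} (j : Fin P.m) (cj : Fin P.b) : Vt P → Vt P
  | Sum.inr (Sum.inl (_, l)) => Sum.inr (Sum.inl (cj, l))
  | Sum.inr (Sum.inr _) => Sum.inr (Sum.inr j)
  | y => y

theorem sw_tt {P : Par} (j : Fin P.m) (cj : Fin P.b) (c : Fin P.b)
    (l : Fin P.r) : sw j cj (tt c l) = tt cj l := rfl

theorem sw_ww {P : Par} (j : Fin P.m) (cj : Fin P.b) (j1 : Fin P.m) :
    sw j cj (ww j1) = ww j := rfl

theorem ok_mono {P : Par} {A A' B : ℕ} (hok : Ok P A B) (hA : A' ≤ A) : Ok P A' B where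
  blk_lt := hok.blk_lt
  blk_mono := hok.blk_mono
  blk_card := hok.blk_card
  even := hok.even
  hr := hA.trans hok.hr
  hb := (Nat.mul_le_mul_right _ hA).trans hok.hb
  hB := (Nat.mul_le_mul_right _ (Nat.mul_le_mul_right _ hA)).trans hok.hB

theorem err_nonneg (X V : Type) (q : ℕ) : 0 ≤ err X V q := by unfold err; positivity

/-- basic numbers -/
theorem ok_pos {P : Par} {A B : ℕ} (hok : Ok P A B) (hA : 1 ≤ A) : 1 ≤ P.r ∧ 1 ≤ P.b ∧ 1 ≤ B := by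
  have h1 : 1 ≤ P.r := hA.trans hok.hr
  have h2 : 1 ≤ P.b := le_trans (Nat.one_le_iff_ne_zero.2 (by positivity)) hok.hb
  have h3 : 1 ≤ B := le_trans (Nat.one_le_iff_ne_zero.2 (by positivity)) hok.hB
  exact ⟨h1, h2, h3⟩

/-- COL, part 1 -/
theorem colE2 (hB : StBoth2) (hSize : StSize) : StColE2 := by
  classical
  intro X _ F R
  obtain ⟨C, hC, A1, hA1⟩ := hSize
  refine ⟨16 * C, by positivity, A1 + 1, ?_⟩
  intro P B hOk p q hrow hcol
  obtain ⟨-, -, -, -, -, -, -, S3, S4, -⟩ := hA1 P B (ok_mono hOk (by omega))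
  obtain ⟨hr1, hb1, hB1⟩ := ok_pos hOk (by omega)
  have hjne : p.1.2 ≠ q.1.2 := fun e => by rw [e] at hcol; omega
  have hpq : p ≠ q := fun e => hjne (by rw [e])
  have hvv : (bk p : Vt P) ≠ bk q := fun e => hpq (bk_inj e)
  obtain ⟨cj, hcj⟩ : ∃ cj : Fin P.b, P.blk p.1.2 = cj :=
    ⟨⟨P.blk p.1.2, hOk.blk_lt _ p.1.2.2⟩, rfl⟩
  obtain ⟨cj', hcj'⟩ : ∃ cj' : Fin P.b, P.blk q.1.2 = cj' :=
    ⟨⟨P.blk q.1.2, hOk.blk_lt _ q.1.2.2⟩, rfl⟩
  obtain ⟨K, hK⟩ : ∃ K : Finset (Vt P), ∀ y, y ∈ K ↔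
      ((gph P).Adj (bk p) y ∧ ¬ (gph P).Adj (bk q) y ∧ y ≠ bk q) := by
    refine ⟨(Set.toFinite {y | (gph P).Adj (bk p) y ∧ ¬ (gph P).Adj (bk q) y ∧
      y ≠ bk q}).toFinset, fun y => ?_⟩
    rw [Set.Finite.mem_toFinset]
    rfl
  have hK2 : ∀ y, y ∈ K ↔ ((∃ c1 l1, y = tt c1 l1 ∧ P.blk q.1.2 = c1 ∧ (l1 : ℕ) < q.1.1 ∧
        P.blk p.1.2 ≠ P.blk q.1.2) ∨ (y = ww q.1.2 ∧ p.1.2 ≠ q.1.2)) :=
    fun y => (hK y).trans (k_iff p q hpq hrow y)
  have main := hB X (Vt P) F (gph P) R (bk p) (bk q) hvv (Vt P) K id (sw p.1.2 cj)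
    (Set.injOn_id _)
    (by
      intro y hy y2 hy2 e
      rcases (hK2 y).1 (Finset.mem_coe.1 hy) with ⟨c1, l1, rfl, h1, -⟩ | ⟨rfl, -⟩
      · rcases (hK2 y2).1 (Finset.mem_coe.1 hy2) with ⟨c2, l2, rfl, h2, -⟩ | ⟨rfl, -⟩
        · rw [sw_tt, sw_tt] at e
          rw [(tt_inj e).2, show c1 = c2 from Fin.ext (h1.symm.trans h2)]
        · rw [sw_tt, sw_ww] at e
          exact absurd e (tt_ne_ww _ _ _)
      · rcases (hK2 y2).1 (Finset.mem_coe.1 hy2) with ⟨c2, l2, rfl, h2, -⟩ | ⟨rfl, -⟩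
        · rw [sw_tt, sw_ww] at e
          exact absurd e.symm (tt_ne_ww _ _ _)
        · rfl)
    (by
      intro y hy y2 hy2 e
      have hy' := ((hK y).1 hy).1
      rw [show (id y : Vt P) = y from rfl] at e
      rcases (hK2 y2).1 hy2 with ⟨c2, l2, rfl, h2, h3, h4⟩ | ⟨rfl, -⟩
      · rw [sw_tt] at e
        rw [e] at hy'
        exact hy'.2 ⟨hcj, by rw [hrow]; exact h3⟩
      · rw [sw_ww] at e
        rw [e] at hy'
        exact hy'.2 rfl)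
    (by
      intro c
      constructor
      · rintro ⟨y, hy, rfl⟩
        exact (hK y).1 hy
      · intro h
        exact ⟨c, (hK c).2 h, rfl⟩)
    (by
      intro c
      rw [k_iff q p hpq.symm hrow.symm c]
      constructor
      · rintro ⟨y, hy, rfl⟩
        rcases (hK2 y).1 hy with ⟨c2, l2, rfl, h2, h3, h4⟩ | ⟨rfl, h5⟩
        · rw [sw_tt]
          exact Or.inl ⟨cj, l2, rfl, hcj, by rw [hrow]; exact h3, h4.symm⟩
        · rw [sw_ww]
          exact Or.inr ⟨rfl, h5.symm⟩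
      · rintro (⟨c1, l1, rfl, h2, h3, h4⟩ | ⟨rfl, h5⟩)
        · refine ⟨tt cj' l1, (hK2 _).2 (Or.inl ⟨cj', l1, rfl, hcj', by rw [← hrow]; exact h3,
            h4.symm⟩), ?_⟩
          rw [sw_tt, show cj = c1 from Fin.ext (hcj.symm.trans h2)]
        · exact ⟨ww q.1.2, (hK2 _).2 (Or.inr ⟨rfl, h5.symm⟩), sw_ww _ _ _⟩)
  refine main.trans ?_
  have hrR : (1 : ℝ) ≤ P.r := by exact_mod_cast hr1
  have hBR : (1 : ℝ) ≤ B := by exact_mod_cast hB1
  have h1 : ∀ y ∈ K, ((sd (gph P) (id y) (sw p.1.2 cj y)).ncard : ℝ) ≤ 2 * C * (P.r * B) := by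
    intro y hy
    rcases (hK2 y).1 hy with ⟨c2, l2, rfl, h2, h3, h4⟩ | ⟨rfl, h5⟩
    · rw [sw_tt]
      have := S3 c2 cj l2 l2
      have h6 : 0 ≤ C * (P.r * B) := by positivity
      simp only [id]
      linarith
    · rw [sw_ww]
      have h4 := S4 q.1.2 p.1.2
      have h5 : |((q.1.2 : ℕ) : ℝ) - ((p.1.2 : ℕ) : ℝ)| = 1 := by
        rw [← hcol]
        push_cast
        rw [show ((p.1.2 : ℕ) : ℝ) + 1 - ((p.1.2 : ℕ) : ℝ) = 1 by ring]
        simp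
      rw [h5] at h4
      have h6 : C * (P.r + 1) ≤ 2 * C * (P.r * B) := by
        have h7 : (P.r : ℝ) + 1 ≤ 2 * (P.r * B) := by nlinarith
        calc C * (P.r + 1) ≤ C * (2 * (P.r * B)) := mul_le_mul_of_nonneg_left h7 hC.le
          _ = _ := by ring
      simp only [id]
      linarith
  have h2 : ((K.card : ℕ) : ℝ) ≤ 2 * P.r := by
    have h3 : (K : Set (Vt P)) ⊆ insert (ww q.1.2) (Set.range fun l : Fin P.r => (tt cj' l : Vt P)) := by
      intro y hy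
      rcases (hK2 y).1 (Finset.mem_coe.1 hy) with ⟨c2, l2, rfl, h2, h3, h4⟩ | ⟨rfl, h5⟩
      · right
        exact ⟨l2, by rw [show cj' = c2 from Fin.ext (hcj'.symm.trans h2)]⟩
      · left; rfl
    have h4 := Set.ncard_le_ncard h3 (Set.toFinite _)
    rw [Set.ncard_coe_finset] at h4
    have h5 := Set.ncard_insert_le (ww q.1.2) (Set.range fun l : Fin P.r => (tt cj' l : Vt P))
    have h6 : (Set.range fun l : Fin P.r => (tt cj' l : Vt P)).ncard ≤ P.r := by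
      rw [← Set.image_univ]
      refine (Set.ncard_image_le Set.finite_univ).trans ?_
      rw [Set.ncard_univ, Nat.card_fin]
    have h7 : K.card ≤ 2 * P.r := by omega
    exact_mod_cast h7
  have h3 : (∑ i ∈ K, ((sd (gph P) (id i) (sw p.1.2 cj i)).ncard : ℝ)) ≤
      4 * C * ((P.r : ℝ) ^ 2 * B) := by
    calc _ ≤ ∑ _i ∈ K, 2 * C * (P.r * B) := Finset.sum_le_sum h1
      _ = (K.card : ℝ) * (2 * C * (P.r * B)) := by rw [Finset.sum_const, nsmul_eq_mul]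
      _ ≤ (2 * P.r) * (2 * C * (P.r * B)) := mul_le_mul_of_nonneg_right h2 (by positivity)
      _ = _ := by ring
  have h4 := mul_le_mul_of_nonneg_right h3 (err_nonneg X (Vt P) 4)
  nlinarith

end Pool.Agent.K7.H62.UI
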