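import Pool.Agent.K7.H62.UI.Col0

/-!
# Project UI, job COL: the last step
-/

set_option autoImplicit false

namespace Pool.Agent.K7.H62.UI

open Pool.Agent.K7.H12.UI

/-- the bulk vertex of the same row in the column `j` (if there is one) -/
def shb {P : Par} (j : Fin P.m) (p : Bk P) : Vt P :=
  if h : (p.1.1 : ℕ) = 0 → P.m ≤ 2 * (j : ℕ) then bk ⟨(p.1.1, j), h⟩ else bk p

theorem shb_eq {P : Par} (j : Fin P.m) (p : Bk P) (h : (p.1.1 : ℕ) = 0 → P.m ≤ 2 * (j : ℕ)) :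
    shb j p = bk ⟨(p.1.1, j), h⟩ := by
  unfold shb
  rw [dif_pos h]

/-- all other bulk vertices are adjacent to both -/
theorem bulk_mem {P : Par} (p q p1 : Bk P) (h1 : p1 ≠ p) (h2 : p1 ≠ q) :
    bk p1 ∈ nb (gph P) (bk p) ∩ nb (gph P) (bk q) := by
  constructor
  · rw [mem_nb]
    exact ⟨fun e => h1 (bk_inj e).symm, fun hn => hn⟩
  · rw [mem_nb]
    exact ⟨fun e => h2 (bk_inj e).symm, fun hn => hn⟩

/-- the additional neighbour -/
theorem gain_vertex {P : Par} (hev : Even P.m) (p q : Bk P) (hrow : (p.1.1 : ℕ) = (q.1.1 : ℕ))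
    (hcol : (p.1.2 : ℕ) + 1 = (q.1.2 : ℕ)) :
    ∃ c : Vt P, c ≠ bk p ∧ c ≠ bk q ∧ c ≠ ww p.1.2 ∧ c ≠ ww q.1.2 ∧
      c ∈ nb (gph P) (ww p.1.2) ∧ c ∉ nb (gph P) (ww q.1.2) ∧
      (∀ p1 : Bk P, p1.1.2 = p.1.2 → shb q.1.2 p1 ≠ c) ∧
      c ∈ nb (gph P) (bk p) ∧ c ∈ nb (gph P) (bk q) := by
  have hq : (q.1.2 : ℕ) < P.m := q.1.2.2
  by_cases hm : 2 * (q.1.2 : ℕ) = P.m
  · -- the exceptional columns
    have hp0 : (p.1.1 : ℕ) ≠ 0 := by
      intro h0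
      have := p.2 h0
      omega
    obtain ⟨c, hc⟩ : ∃ c : Bk P, c = ⟨(⟨0, Nat.succ_pos _⟩, q.1.2), fun _ => by
      show P.m ≤ 2 * (q.1.2 : ℕ)
      omega⟩ := ⟨_, rfl⟩
    have hc1 : (c.1.1 : ℕ) = 0 := by rw [hc]
    have hc2 : c.1.2 = q.1.2 := by rw [hc]
    have n1 : c ≠ p := fun e => hp0 (by rw [← e]; exact hc1)
    have n2 : c ≠ q := fun e => hp0 (by rw [hrow, ← e]; exact hc1)
    refine ⟨bk c, fun e => n1 (bk_inj e), fun e => n2 (bk_inj e), bk_ne_ww _ _, bk_ne_ww _ _, ?_, ?_,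
      ?_, (bulk_mem p q c n1 n2).1, (bulk_mem p q c n1 n2).2⟩
    · rw [mem_nb]
      refine ⟨(bk_ne_ww _ _).symm, fun hn => ?_⟩
      have hn' : (c.1.2 : ℕ) = (p.1.2 : ℕ) := hn
      rw [hc2] at hn'
      omega
    · rw [mem_nb]
      intro hn
      apply hn.2
      show (c.1.2 : ℕ) = (q.1.2 : ℕ)
      rw [hc2]
    · intro p1 hp1 e
      have hp1' : (p1.1.1 : ℕ) ≠ 0 := by
        intro h0
        have := p1.2 h0
        rw [hp1] at this
        omega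
      rw [shb_eq q.1.2 p1 (fun h0 => absurd h0 hp1')] at e
      have e2 := congrArg (fun t : Bk P => (t.1.1 : ℕ)) (bk_inj e)
      exact hp1' (e2.trans hc1)
  · obtain ⟨ju, hju⟩ : ∃ ju : Fin P.m, (ju : ℕ) = P.m - 2 - p.1.2 :=
      ⟨⟨P.m - 2 - p.1.2, by omega⟩, rfl⟩
    obtain ⟨m2, hm2⟩ := hev
    have j1 : ju ≠ p.1.2 := fun e => by
      have := congrArg Fin.val e
      omega
    have j2 : ju ≠ q.1.2 := fun e => by
      have := congrArg Fin.val e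
      omega
    refine ⟨ww ju, (bk_ne_ww _ _).symm, (bk_ne_ww _ _).symm, fun e => j1 (ww_inj e),
      fun e => j2 (ww_inj e), ?_, ?_, ?_, ?_, ?_⟩
    · rw [mem_nb]
      refine ⟨fun e => j1 (ww_inj e).symm, fun hn => ?_⟩
      have hn' : P.m < (p.1.2 : ℕ) + ju + 2 := hn
      omega
    · rw [mem_nb]
      intro hn
      apply hn.2
      show P.m < (q.1.2 : ℕ) + ju + 2
      omega
    · intro p1 _ e
      unfold shb at e
      split at e
      · exact bk_ne_ww _ _ e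
      · exact bk_ne_ww _ _ e
    · rw [mem_nb]
      refine ⟨bk_ne_ww _ _, fun hn => j1 ?_⟩
      have hn' : (p.1.2 : ℕ) = ju := hn
      exact Fin.ext hn'.symm
    · rw [mem_nb]
      refine ⟨bk_ne_ww _ _, fun hn => j2 ?_⟩
      have hn' : (q.1.2 : ℕ) = ju := hn
      exact Fin.ext hn'.symm

/-- COL, part 2 -/
theorem colLast (hSL : StSL) (hLB2 : StLB2) (hSize : StSize) : StColLast := by
  classical
  intro X _ F R y1 y2 y3 hy1 h12 h23 h13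
  obtain ⟨c0, hc0, A1, hA1⟩ := hLB2 X F R y1 y2 y3 hy1 h12 h23 h13
  obtain ⟨C, hC, A2, hA2⟩ := hSize
  obtain ⟨A3, hA3⟩ := exists_nat_gt ((2 + 2 * C) / c0)
  refine ⟨c0, 4 * C, hc0, by positivity, A1 + A2 + A3 + 1, ?_⟩
  intro P B hOk p q hrow hcol Q hQ hpQ hqQ
  have hLB := hA1 P B (ok_mono hOk (by omega))
  obtain ⟨-, hn0, hbB, -, -, hrm, S2, -, S4, -, -, S5⟩ := hA2 P B (ok_mono hOk (by omega))
  obtain ⟨hr1, hb1, hB1⟩ := ok_pos hOk (by omega)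
  have hrR : (1 : ℝ) ≤ P.r := by exact_mod_cast hr1
  have hBR : (1 : ℝ) ≤ B := by exact_mod_cast hB1
  have hjne : p.1.2 ≠ q.1.2 := fun e => by rw [e] at hcol; omega
  have hpq : p ≠ q := fun e => hjne (by rw [e])
  have hvv : (bk p : Vt P) ≠ bk q := fun e => hpq (bk_inj e)
  have hzz : (ww p.1.2 : Vt P) ≠ ww q.1.2 := fun e => hjne (ww_inj e)
  haveI : Nonempty (Vt P) := ⟨bk p⟩
  obtain ⟨G, hG⟩ : ∃ G, G = gph P := ⟨_, rfl⟩
  obtain ⟨U, hU⟩ : ∃ U : Set (Vt P), U = (nb (gph P) (ww p.1.2) ∩ nb (gph P) (ww q.1.2)) \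
    {bk p, bk q, ww p.1.2, ww q.1.2} := ⟨_, rfl⟩
  obtain ⟨I, hI⟩ : ∃ I : Finset (Bk P), ∀ p1, p1 ∈ I ↔ (p1.1.2 = p.1.2 ∧ p1 ≠ p) := by
    refine ⟨(Set.toFinite {p1 : Bk P | p1.1.2 = p.1.2 ∧ p1 ≠ p}).toFinset, fun y => ?_⟩
    rw [Set.Finite.mem_toFinset]
    rfl
  -- the shifted vertices
  have hsh : ∀ p1 : Bk P, p1.1.2 = p.1.2 → ∃ p2 : Bk P, shb q.1.2 p1 = bk p2 ∧
      p2.1.1 = p1.1.1 ∧ p2.1.2 = q.1.2 := by
    intro p1 hp1
    have h : (p1.1.1 : ℕ) = 0 → P.m ≤ 2 * (q.1.2 : ℕ) := by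
      intro h0
      have := p1.2 h0
      rw [hp1] at this
      omega
    exact ⟨⟨(p1.1.1, q.1.2), h⟩, shb_eq _ _ h, rfl, rfl⟩
  have hbQ : ∀ p1 : Bk P, p1 ≠ p → p1 ≠ q → bk p1 ∈ Q := fun p1 h1 h2 => hQ (bulk_mem p q p1 h1 h2)
  have hext : ∀ p1 p2 : Bk P, p1.1.1 = p2.1.1 → p1.1.2 = p2.1.2 → p1 = p2 := by
    intro p1 p2 h1 h2
    exact Subtype.ext (Prod.ext h1 h2)
  have hrow' : p.1.1 = q.1.1 := Fin.ext hrow
  have A1' : ∀ p1 ∈ I, bk p1 ∉ U ∧ shb q.1.2 p1 ∉ U ∧ bk p1 ≠ bk p ∧ shb q.1.2 p1 ≠ bk p ∧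
      bk p1 ≠ bk q ∧ shb q.1.2 p1 ≠ bk q ∧ bk p1 ≠ ww p.1.2 ∧ shb q.1.2 p1 ≠ ww p.1.2 ∧
      bk p1 ≠ ww q.1.2 ∧ shb q.1.2 p1 ≠ ww q.1.2 ∧ (bk p1 ∈ Q ↔ shb q.1.2 p1 ∈ Q) := by
    intro p1 hp1
    obtain ⟨h1, h2⟩ := (hI p1).1 hp1
    obtain ⟨p2, e2, r2, c2⟩ := hsh p1 h1
    have n1 : p1 ≠ q := fun e => hjne (by rw [← h1, e])
    have n2 : p2 ≠ p := fun e => hjne (by rw [← c2, e])
    have n3 : p2 ≠ q := fun e => h2 (hext _ _ (by rw [← r2, e, hrow']) h1)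
    rw [e2]
    refine ⟨?_, ?_, fun e => h2 (bk_inj e), fun e => n2 (bk_inj e), fun e => n1 (bk_inj e),
      fun e => n3 (bk_inj e), bk_ne_ww _ _, bk_ne_ww _ _, bk_ne_ww _ _, bk_ne_ww _ _,
      iff_of_true (hbQ _ h2 n1) (hbQ _ n2 n3)⟩
    · rw [hU]
      rintro ⟨⟨hm, -⟩, -⟩
      apply hm.2
      show (p1.1.2 : ℕ) = (p.1.2 : ℕ)
      rw [h1]
    · rw [hU]
      rintro ⟨⟨-, hm⟩, -⟩
      apply hm.2
      show (p2.1.2 : ℕ) = (q.1.2 : ℕ)
      rw [c2]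
  have hmain := (hSL X (Vt P) F (gph P) R (bk p) (bk q) (ww p.1.2) (ww q.1.2) hvv hzz (bk_ne_ww _ _)
    (bk_ne_ww _ _) (bk_ne_ww _ _) (bk_ne_ww _ _) Q hpQ hqQ (Bk P) I bk (shb q.1.2) U A1'
    (fun _ _ _ _ e => bk_inj e)
    (by
      intro p1 hp1 p2 hp2 e
      obtain ⟨h1, -⟩ := (hI p1).1 (Finset.mem_coe.1 hp1)
      obtain ⟨h2, -⟩ := (hI p2).1 (Finset.mem_coe.1 hp2)
      obtain ⟨p3, e3, r3, c3⟩ := hsh p1 h1
      obtain ⟨p4, e4, r4, c4⟩ := hsh p2 h2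
      rw [e3, e4] at e
      have e5 := bk_inj e
      exact hext _ _ (by rw [← r3, ← r4, e5]) (h1.trans h2.symm))
    (by
      intro p1 hp1 p2 hp2 e
      obtain ⟨h1, -⟩ := (hI p1).1 hp1
      obtain ⟨h2, -⟩ := (hI p2).1 hp2
      obtain ⟨p4, e4, r4, c4⟩ := hsh p2 h2
      rw [e4] at e
      have e5 := bk_inj e
      exact hjne (by rw [← h1, e5, c4]))
    (by
      intro c hc hcv hcv' hcz
      by_cases hcz1 : c ∈ nb (gph P) (ww p.1.2)
      · left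
        rw [hU]
        refine ⟨⟨hcz1, hc⟩, ?_⟩
        rintro (e | e | e | e)
        exacts [hcv e, hcv' e, hcz e, hc.1 e.symm]
      · right
        have h2 : Mis P (.w p.1.2) (lab c) := by
          by_contra hn
          exact hcz1 ⟨Ne.symm hcz, hn⟩
        have h1 : ¬ Mis P (.w q.1.2) (lab c) := hc.2
        rcases vt_cases c with ⟨p1, rfl⟩ | ⟨c2, l2, rfl⟩ | ⟨j2, rfl⟩
        · have h2' : (p1.1.2 : ℕ) = p.1.2 := h2
          exact ⟨p1, Finset.mem_coe.2 ((hI p1).2 ⟨Fin.ext h2', fun e => hcv (by rw [e])⟩), rfl⟩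
        · exact absurd trivial h1
        · have h1' : ¬ (P.m < (q.1.2 : ℕ) + j2 + 2) := h1
          have h2' : P.m < (p.1.2 : ℕ) + j2 + 2 := h2
          omega)
    (by
      rintro c (hc | ⟨p1, hp1, rfl⟩) - - - -
      · rw [hU] at hc
        exact hc.1.1
      · obtain ⟨h1, -⟩ := (hI p1).1 (Finset.mem_coe.1 hp1)
        obtain ⟨p4, e4, r4, c4⟩ := hsh p1 h1
        rw [e4, mem_nb]
        refine ⟨(bk_ne_ww _ _).symm, fun hn => ?_⟩
        have hn' : (p4.1.2 : ℕ) = (p.1.2 : ℕ) := hn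
        rw [c4] at hn'
        omega)).2
  obtain ⟨c, g1, g2, g3, g4, g5, g6, g7, g8, g9⟩ := gain_vertex hOk.even p q hrow hcol
  have hsl := hmain c g1 g2 g3 g4 g5 (by
    rintro (hc | ⟨p1, hp1, e⟩)
    · rw [hU] at hc
      exact g6 hc.1.2
    · obtain ⟨h1, -⟩ := (hI p1).1 (Finset.mem_coe.1 hp1)
      exact g7 p1 h1 e)
  have hlb := hLB (bk p) (bk q) (ww p.1.2) (ww q.1.2) c (insert (ww p.1.2) Q)
    (insert c (insert (bk p) (U ∪ shb q.1.2 '' (I : Set (Bk P))))) hvv hzz (bk_ne_ww _ _)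
    (bk_ne_ww _ _) (bk_ne_ww _ _) g1 g2 g3 g4 (Or.inl rfl) (fun _ => Or.inr (hQ ⟨g8, g9⟩))
    (Or.inr (Or.inl rfl)) (Or.inl rfl)
    (by
      have hsub : {y : Vt P | (∃ p, y = bk p) ∧ (y ∉ insert (ww p.1.2) Q ∨
          y ∉ insert c (insert (bk p) (U ∪ shb q.1.2 '' (I : Set (Bk P)))))} ⊆
          {bk p, bk q} ∪ ({y | (∃ p, y = bk p) ∧ y ∉ nb (gph P) (ww p.1.2)} ∪
            {y | (∃ p, y = bk p) ∧ y ∉ nb (gph P) (ww q.1.2)}) := by
        rintro y ⟨⟨p1, rfl⟩, hc⟩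
        by_cases e1 : p1 = p
        · left; left; rw [e1]
        by_cases e2 : p1 = q
        · left; right; rw [e2]; rfl
        right
        rcases hc with hc | hc
        · exact absurd (Or.inr (hbQ p1 e1 e2)) hc
        · by_cases k1 : bk p1 ∈ nb (gph P) (ww p.1.2)
          · by_cases k2 : bk p1 ∈ nb (gph P) (ww q.1.2)
            · exfalso
              apply hc
              right; right; left
              rw [hU]
              refine ⟨⟨k1, k2⟩, ?_⟩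
              rintro (e | e | e | e)
              exacts [e1 (bk_inj e), e2 (bk_inj e), bk_ne_ww _ _ e, bk_ne_ww _ _ e]
            · right; exact ⟨⟨p1, rfl⟩, k2⟩
          · left; exact ⟨⟨p1, rfl⟩, k1⟩
      have q1 := S5 (ww p.1.2)
      have q2 := S5 (ww q.1.2)
      have q3 := (Set.ncard_le_ncard hsub (Set.toFinite _)).trans ((Set.ncard_union_le _ _).trans
        (Nat.add_le_add ((Set.ncard_insert_le _ _).trans (Nat.succ_le_succ
          (Set.ncard_singleton (bk q : Vt P)).le)) (Set.ncard_union_le _ _)))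
      have q4 : ({y : Vt P | (∃ p, y = bk p) ∧ (y ∉ insert (ww p.1.2) Q ∨
          y ∉ insert c (insert (bk p) (U ∪ shb q.1.2 '' (I : Set (Bk P)))))}.ncard : ℝ) ≤
          2 + (({y | (∃ p, y = bk p) ∧ y ∉ nb (gph P) (ww p.1.2)} : Set (Vt P)).ncard +
            (({y | (∃ p, y = bk p) ∧ y ∉ nb (gph P) (ww q.1.2)} : Set (Vt P)).ncard : ℝ)) := by
        have q5 := (Nat.cast_le (α := ℝ)).2 q3
        push_cast at q5
        linarith
      have q6 : (2 : ℝ) + 2 * (C * (P.r * B)) ≤ c0 * Nat.card (Vt P) := by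
        have r1 : (A1 + A2 + A3 + 1) * P.r ^ 3 * B ≤ Nat.card (Vt P) := by
          calc (A1 + A2 + A3 + 1) * P.r ^ 3 * B = P.r * ((A1 + A2 + A3 + 1) * P.r ^ 2 * B) := by ring
            _ ≤ P.r * (P.b * B) := Nat.mul_le_mul_left _ (Nat.mul_le_mul_right _ hOk.hb)
            _ ≤ P.r * P.m := Nat.mul_le_mul_left _ hbB
            _ ≤ Nat.card (Vt P) := by exact_mod_cast hrm
        have r2 : ((A1 : ℝ) + A2 + A3 + 1) * P.r ^ 3 * B ≤ Nat.card (Vt P) := by exact_mod_cast r1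
        have r3 : (P.r : ℝ) * B ≤ P.r ^ 3 * B := by
          have : (P.r : ℝ) ≤ P.r ^ 3 := by
            calc (P.r : ℝ) = P.r ^ 1 := (pow_one _).symm
              _ ≤ P.r ^ 3 := pow_le_pow_right₀ hrR (by norm_num)
          nlinarith
        have r4 : (1 : ℝ) ≤ P.r ^ 3 * B := by nlinarith
        have r5 : 2 + 2 * C ≤ c0 * (A1 + A2 + A3 + 1) := by
          rw [div_lt_iff₀ hc0] at hA3
          have t1 : (0 : ℝ) ≤ A1 := Nat.cast_nonneg _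
          have t2 : (0 : ℝ) ≤ A2 := Nat.cast_nonneg _
          nlinarith
        calc (2 : ℝ) + 2 * (C * (P.r * B)) ≤ (2 + 2 * C) * (P.r ^ 3 * B) := by nlinarith
          _ ≤ (c0 * (A1 + A2 + A3 + 1)) * (P.r ^ 3 * B) := mul_le_mul_of_nonneg_right r5
              (by positivity)
          _ = c0 * ((A1 + A2 + A3 + 1) * P.r ^ 3 * B) := by ring
          _ ≤ c0 * Nat.card (Vt P) := mul_le_mul_of_nonneg_left r2 hc0.le
      linarith)
  -- the costs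
  have hIc : ((I.card : ℕ) : ℝ) ≤ P.r + 1 := by
    have h1 : I.card ≤ (Finset.univ : Finset (Fin (P.r + 1))).card := by
      apply Finset.card_le_card_of_injOn (fun p1 : Bk P => p1.1.1)
      · intro p1 _
        exact Finset.mem_coe.2 (Finset.mem_univ _)
      · intro p1 hp1 p2 hp2 e
        exact hext _ _ e (((hI p1).1 (Finset.mem_coe.1 hp1)).1.trans
          ((hI p2).1 (Finset.mem_coe.1 hp2)).1.symm)
    rw [Finset.card_univ, Fintype.card_fin] at h1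
    exact_mod_cast h1
  have hsum : (∑ i ∈ I, ((sd (gph P) (bk i) (shb q.1.2 i)).ncard : ℝ)) ≤
      (P.r + 1) * (C * P.r) := by
    calc _ ≤ ∑ _i ∈ I, C * P.r := by
          refine Finset.sum_le_sum fun p1 hp1 => ?_
          obtain ⟨p2, e2, -⟩ := hsh p1 ((hI p1).1 hp1).1
          rw [e2]
          exact S2 p1 p2
      _ = (I.card : ℝ) * (C * P.r) := by rw [Finset.sum_const, nsmul_eq_mul]
      _ ≤ _ := mul_le_mul_of_nonneg_right hIc (by positivity)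
  have hsd : (((sd (gph P) (ww p.1.2) (ww q.1.2) : Set (Vt P)).ncard : ℝ)) ≤ C * (P.r + 1) := by
    have h4 := S4 p.1.2 q.1.2
    have h5 : |((p.1.2 : ℕ) : ℝ) - ((q.1.2 : ℕ) : ℝ)| = 1 := by
      rw [← hcol]
      push_cast
      rw [show ((p.1.2 : ℕ) : ℝ) - (((p.1.2 : ℕ) : ℝ) + 1) = -1 by ring]
      simp
    rw [h5] at h4
    exact h4
  have hcost : (((sd (gph P) (ww p.1.2) (ww q.1.2) : Set (Vt P)).ncard : ℝ) +
      ∑ i ∈ I, ((sd (gph P) (bk i) (shb q.1.2 i)).ncard : ℝ)) ≤ 4 * C * ((P.r : ℝ) ^ 2 * B) := by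
    have e1 : C * (P.r + 1) + (P.r + 1) * (C * P.r) = C * ((P.r : ℝ) + 1) ^ 2 := by ring
    have e2 : ((P.r : ℝ) + 1) ^ 2 ≤ 4 * P.r ^ 2 := by nlinarith
    have e3 : (P.r : ℝ) ^ 2 ≤ P.r ^ 2 * B := by
      have : (0 : ℝ) ≤ P.r ^ 2 := by positivity
      nlinarith
    have e4 : C * ((P.r : ℝ) + 1) ^ 2 ≤ C * (4 * (P.r ^ 2 * B)) := by
      apply mul_le_mul_of_nonneg_left _ hC.le
      linarith
    linarith
  have h4 := mul_le_mul_of_nonneg_right hcost (err_nonneg X (Vt P) 4)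
  linarith

end Pool.Agent.K7.H62.UI
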