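import Pool.Agent.K7.H12.UI.Conc

/-!
# Project UI, job COL: the statements of the parts
-/

set_option autoImplicit false

namespace Pool.Agent.K7.H62.UI

open Pool.Agent.K7.H12.UI

/-- COL, part 1 (helper62): the part with both vertices, by BOTH2 and SIZE -/
def StColE2 : Prop := ∀ (X : Type) [Finite X] (F : SimpleGraph X) (R : Set X),
  ∃ C : ℝ, 0 < C ∧ ∃ A : ℕ, ∀ (P : Par) (B : ℕ), Ok P A B → ∀ p q : Bk P,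
    (p.1.1 : ℕ) = (q.1.1 : ℕ) → (p.1.2 : ℕ) + 1 = (q.1.2 : ℕ) →
    mu F (gph P) (E2 R ∅ (bk p) (bk q)) ≤ mu F (gph P) (E2 R ∅ (bk q) (bk p)) +
      C * ((P.r : ℝ) ^ 2 * B) * err X (Vt P) 4

/-- COL, part 2 (helper62): the last step `w (j + 1) → w j`, with the gain, by SL, LB2, SIZE -/
def StColLast : Prop := ∀ (X : Type) [Finite X] (F : SimpleGraph X) (R : Set X) (y1 y2 y3 : X),
  y1 ∈ R → F.Adj y1 y2 → F.Adj y2 y3 → y1 ≠ y3 →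
  ∃ c C : ℝ, 0 < c ∧ 0 < C ∧ ∃ A : ℕ, ∀ (P : Par) (B : ℕ), Ok P A B → ∀ p q : Bk P,
    (p.1.1 : ℕ) = (q.1.1 : ℕ) → (p.1.2 : ℕ) + 1 = (q.1.2 : ℕ) →
    ∀ Q : Set (Vt P), nb (gph P) (bk p) ∩ nb (gph P) (bk q) ⊆ Q → ww p.1.2 ∉ Q → ww q.1.2 ∉ Q →
    mu F (upd (gph P) (bk p) (insert (ww q.1.2) Q)) (E1 R ∅ (bk p) (bk q)) +
      c * err X (Vt P) 3 ≤
    mu F (upd (gph P) (bk p) (insert (ww p.1.2) Q)) (E1 R ∅ (bk p) (bk q)) +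
      C * ((P.r : ℝ) ^ 2 * B) * err X (Vt P) 4

/-- COL, part 3 (helper54): a step `t (c', l) → t (c, l)` of the row hubs, by SL and SIZE;
`c = blk (column of p)`, `c' = blk (column of q)` -/
def StColT : Prop := ∀ (X : Type) [Finite X] (F : SimpleGraph X) (R : Set X),
  ∃ C : ℝ, 0 < C ∧ ∃ A : ℕ, ∀ (P : Par) (B : ℕ), Ok P A B → ∀ p q : Bk P,
    (p.1.1 : ℕ) = (q.1.1 : ℕ) → (p.1.2 : ℕ) + 1 = (q.1.2 : ℕ) →
    ∀ (c c' : Fin P.b) (l : Fin P.r), (l : ℕ) < p.1.1 → P.blk p.1.2 = c → P.blk q.1.2 = c' →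
    c ≠ c' →
    ∀ Q : Set (Vt P), (∀ p1 : Bk P, p1 ≠ p → p1 ≠ q → bk p1 ∈ Q) → tt c l ∉ Q → tt c' l ∉ Q →
    mu F (upd (gph P) (bk p) (insert (tt c' l) Q)) (E1 R ∅ (bk p) (bk q)) ≤
    mu F (upd (gph P) (bk p) (insert (tt c l) Q)) (E1 R ∅ (bk p) (bk q)) +
      C * ((P.r : ℝ) ^ 2 * B) * err X (Vt P) 4

end Pool.Agent.K7.H62.UI
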