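import Pool.Agent.K7.H62.UI.Col0
import Pool.Agent.K7.H62.UI.Col1

/-!
# Project UI, job COL: the assembly
-/

set_option autoImplicit false

namespace Pool.Agent.K7.H62.UI

open Pool.Agent.K7.H12.UI

/-- replace the elements of `K` one after the other (as in project FI, helper54) -/
theorem move {V : Type} (f : Set V → ℝ) (U0 : Set V) (K : Finset V) (z : V → V) (M : ℝ)
    (hU : ∀ y ∈ K, y ∉ U0 ∧ z y ∉ U0) (hinj : Set.InjOn z (K : Set V))
    (hne : ∀ y ∈ K, ∀ y2 ∈ K, z y ≠ y2)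
    (hstep : ∀ y ∈ K, ∀ P : Set V, U0 ⊆ P → y ∉ P → z y ∉ P →
      f (insert y P) ≤ f (insert (z y) P) + M) :
    ∀ S : Finset V, S ⊆ K →
      f (U0 ∪ (K : Set V)) ≤ f (U0 ∪ ((K : Set V) \ S) ∪ z '' S) + S.card * M := by
  classical
  intro S
  induction S using Finset.induction_on with
  | empty =>
    intro _
    simp
  | insert y S hy ih =>
    intro hS
    have hyK : y ∈ K := hS (Finset.mem_insert_self y S)
    have hSK : S ⊆ K := fun a ha => hS (Finset.mem_insert_of_mem ha)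
    have h1 := ih hSK
    obtain ⟨P, hP⟩ : ∃ P : Set V, P = U0 ∪ ((K : Set V) \ (insert y S : Finset V)) ∪ z '' S :=
      ⟨_, rfl⟩
    have e1 : U0 ∪ ((K : Set V) \ S) ∪ z '' S = insert y P := by
      rw [hP]
      ext a
      simp only [Set.mem_union, Set.mem_diff, Finset.mem_coe, Set.mem_insert_iff,
        Finset.mem_insert, not_or]
      constructor
      · rintro ((h | ⟨h, h'⟩) | h)
        · exact Or.inr (Or.inl (Or.inl h))
        · by_cases hay : a = y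
          · exact Or.inl hay
          · exact Or.inr (Or.inl (Or.inr ⟨h, hay, h'⟩))
        · exact Or.inr (Or.inr h)
      · rintro (h | (h | ⟨h, h', h''⟩) | h)
        · rw [h]; exact Or.inl (Or.inr ⟨hyK, hy⟩)
        · exact Or.inl (Or.inl h)
        · exact Or.inl (Or.inr ⟨h, h''⟩)
        · exact Or.inr h
    have e2 : U0 ∪ ((K : Set V) \ (insert y S : Finset V)) ∪ z '' (insert y S : Finset V) =
        insert (z y) P := by
      rw [hP]
      ext a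
      simp only [Finset.coe_insert, Set.image_insert_eq, Set.mem_union, Set.mem_insert_iff]
      tauto
    have hyP : y ∉ P := by
      rw [hP]
      rintro ((h | h) | ⟨y2, h2, h⟩)
      · exact (hU y hyK).1 h
      · exact h.2 (Finset.mem_coe.2 (Finset.mem_insert_self y S))
      · exact hne y2 (hSK (Finset.mem_coe.1 h2)) y hyK h
    have hzP : z y ∉ P := by
      rw [hP]
      rintro ((h | h) | ⟨y2, h2, h⟩)
      · exact (hU y hyK).2 h
      · exact hne y hyK _ (Finset.mem_coe.1 h.1) rfl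
      · have := hinj (Finset.mem_coe.2 (hSK (Finset.mem_coe.1 h2))) (Finset.mem_coe.2 hyK) h
        rw [this] at h2
        exact hy (Finset.mem_coe.1 h2)
    have h2 := hstep y hyK P (by rw [hP]; exact fun a ha => Or.inl (Or.inl ha)) hyP hzP
    rw [e2, Finset.card_insert_of_notMem hy]
    rw [e1] at h1
    push_cast
    linarith

/-- COL from its parts -/
theorem col_of_parts (hE2 : StColE2) (hLast : StColLast) (hT : StColT) (hDiff : StDiff)
    (hSplit : StSplit) (hSize : StSize) : StCol := by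
  classical
  intro X _ F R y1 y2 y3 hy1 h12 h23 h13
  obtain ⟨C1, hC1, A1, hA1⟩ := hE2 X F R
  obtain ⟨c0, C2, hc0, hC2, A2, hA2⟩ := hLast X F R y1 y2 y3 hy1 h12 h23 h13
  obtain ⟨C3, hC3, A3, hA3⟩ := hT X F R
  obtain ⟨C, hC, A4, hA4⟩ := hSize
  obtain ⟨k, hk⟩ : ∃ k, k = Nat.card X := ⟨_, rfl⟩
  obtain ⟨A5, hA5⟩ := exists_nat_gt ((2 * (C2 + C3) + C1) * k / c0)
  refine ⟨A1 + A2 + A3 + A4 + A5 + 1, ?_⟩
  intro P B hOk p q hrow hcol
  have hE := hA1 P B (ok_mono hOk (by omega)) p q hrow hcol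
  have hL := hA2 P B (ok_mono hOk (by omega)) p q hrow hcol
  have hTT := hA3 P B (ok_mono hOk (by omega)) p q hrow hcol
  obtain ⟨-, hn0, hbB, -, -, hrm, -⟩ := hA4 P B (ok_mono hOk (by omega))
  obtain ⟨hr1, hb1, hB1⟩ := ok_pos hOk (by omega)
  have hrR : (1 : ℝ) ≤ P.r := by exact_mod_cast hr1
  have hBR : (1 : ℝ) ≤ B := by exact_mod_cast hB1
  have hk1 : 1 ≤ k := by
    rw [hk]
    haveI : Nonempty X := ⟨y1⟩
    exact Nat.card_pos
  have hkR : (1 : ℝ) ≤ k := by exact_mod_cast hk1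
  have hjne : p.1.2 ≠ q.1.2 := fun e => by rw [e] at hcol; omega
  have hpq : p ≠ q := fun e => hjne (by rw [e])
  haveI : Nonempty (Vt P) := ⟨bk p⟩
  have hnR : (0 : ℝ) < Nat.card (Vt P) := by exact_mod_cast hn0
  obtain ⟨v, hv⟩ : ∃ v : Vt P, v = bk p := ⟨_, rfl⟩
  obtain ⟨v', hv'⟩ : ∃ v' : Vt P, v' = bk q := ⟨_, rfl⟩
  obtain ⟨G, hG⟩ : ∃ G, G = gph P := ⟨_, rfl⟩
  have hvv : v ≠ v' := by rw [hv, hv']; exact fun e => hpq (bk_inj e)
  obtain ⟨f, hf⟩ : ∃ f : Set (Vt P) → ℝ, f = fun Q => mu F (upd G v Q) (E1 R ∅ v v') := ⟨_, rfl⟩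
  have hD := (hDiff X (Vt P) F G R ∅ v v' hvv (Set.notMem_empty _) (Set.notMem_empty _)).1
  have hD' : D F G R ∅ v - D F G R ∅ v' = (f (nb G v) - f (nb G v')) +
      (mu F G (E2 R ∅ v v') - mu F G (E2 R ∅ v' v)) := by
    rw [hf]
    exact hD
  obtain ⟨cj, hcj⟩ : ∃ cj : Fin P.b, P.blk p.1.2 = cj :=
    ⟨⟨P.blk p.1.2, hOk.blk_lt _ p.1.2.2⟩, rfl⟩
  obtain ⟨cj', hcj'⟩ : ∃ cj' : Fin P.b, P.blk q.1.2 = cj' :=
    ⟨⟨P.blk q.1.2, hOk.blk_lt _ q.1.2.2⟩, rfl⟩
  obtain ⟨K, hK⟩ : ∃ K : Finset (Vt P), ∀ y, y ∈ K ↔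
      (G.Adj v y ∧ ¬ G.Adj v' y ∧ y ≠ v') := by
    refine ⟨(Set.toFinite {y | G.Adj v y ∧ ¬ G.Adj v' y ∧ y ≠ v'}).toFinset, fun y => ?_⟩
    rw [Set.Finite.mem_toFinset]
    rfl
  have hK2 : ∀ y, y ∈ K ↔ ((∃ c1 l1, y = tt c1 l1 ∧ P.blk q.1.2 = c1 ∧ (l1 : ℕ) < q.1.1 ∧
        P.blk p.1.2 ≠ P.blk q.1.2) ∨ (y = ww q.1.2 ∧ p.1.2 ≠ q.1.2)) := by
    intro y
    rw [hK, hG, hv, hv']
    exact k_iff p q hpq hrow y
  have hK3 : ∀ y, (G.Adj v' y ∧ ¬ G.Adj v y ∧ y ≠ v) ↔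
      ((∃ c1 l1, y = tt c1 l1 ∧ P.blk p.1.2 = c1 ∧ (l1 : ℕ) < p.1.1 ∧
        P.blk q.1.2 ≠ P.blk p.1.2) ∨ (y = ww p.1.2 ∧ q.1.2 ≠ p.1.2)) := by
    intro y
    rw [hG, hv, hv']
    exact k_iff q p hpq.symm hrow.symm y
  obtain ⟨U0, hU0⟩ : ∃ U0 : Set (Vt P), U0 = nb G v ∩ nb G v' := ⟨_, rfl⟩
  have hsw : ∀ y ∈ K, G.Adj v' (sw p.1.2 cj y) ∧ ¬ G.Adj v (sw p.1.2 cj y) ∧
      sw p.1.2 cj y ≠ v := by
    intro y hy
    rw [hK3]
    rcases (hK2 y).1 hy with ⟨c2, l2, rfl, h2, h3, h4⟩ | ⟨rfl, h5⟩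
    · rw [sw_tt]
      exact Or.inl ⟨cj, l2, rfl, hcj, by rw [hrow]; exact h3, h4.symm⟩
    · rw [sw_ww]
      exact Or.inr ⟨rfl, h5.symm⟩
  have hinj : Set.InjOn (sw p.1.2 cj) (K : Set (Vt P)) := by
    intro y hy y2 hy2 e
    rcases (hK2 y).1 (Finset.mem_coe.1 hy) with ⟨c1, l1, rfl, h1, -⟩ | ⟨rfl, -⟩
    · rcases (hK2 y2).1 (Finset.mem_coe.1 hy2) with ⟨c2, l2, rfl, h2, -⟩ | ⟨rfl, -⟩
      · rw [sw_tt, sw_tt] at e
        rw [(tt_inj e).2, show c1 = c2 from Fin.ext (h1.symm.trans h2)]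
      · rw [sw_tt, sw_ww] at e
        exact absurd e (tt_ne_ww _ _ _)
    · rcases (hK2 y2).1 (Finset.mem_coe.1 hy2) with ⟨c2, l2, rfl, h2, -⟩ | ⟨rfl, -⟩
      · rw [sw_tt, sw_ww] at e
        exact absurd e.symm (tt_ne_ww _ _ _)
      · rfl
  have herr3 : 0 < err X (Vt P) 3 := by
    unfold err
    rw [← hk]
    positivity
  obtain ⟨M, hM⟩ : ∃ M : ℝ, M = (C2 + C3) * ((P.r : ℝ) ^ 2 * B) * err X (Vt P) 4 := ⟨_, rfl⟩
  have hM2 : C2 * ((P.r : ℝ) ^ 2 * B) * err X (Vt P) 4 ≤ M := by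
    rw [hM]
    apply mul_le_mul_of_nonneg_right _ (err_nonneg _ _ _)
    apply mul_le_mul_of_nonneg_right _ (by positivity)
    linarith
  have hM3 : C3 * ((P.r : ℝ) ^ 2 * B) * err X (Vt P) 4 ≤ M := by
    rw [hM]
    apply mul_le_mul_of_nonneg_right _ (err_nonneg _ _ _)
    apply mul_le_mul_of_nonneg_right _ (by positivity)
    linarith
  -- the last step
  have hlast : ∀ Q : Set (Vt P), U0 ⊆ Q → ww q.1.2 ∉ Q → ww p.1.2 ∉ Q →
      f (insert (ww q.1.2) Q) + c0 * err X (Vt P) 3 ≤ f (insert (ww p.1.2) Q) + M := by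
    intro Q hQ hq hp
    have := hL Q (by rw [← hv, ← hv', ← hG, ← hU0]; exact hQ) hp hq
    rw [← hv, ← hv', ← hG] at this
    rw [hf]
    simp only
    linarith
  have hmv := move f U0 K (sw p.1.2 cj) M
    (fun y hy => by
      rw [hU0]
      exact ⟨fun hn => ((hK y).1 hy).2.1 hn.2, fun hn => (hsw y hy).2.1 hn.1⟩)
    hinj
    (fun y hy y2 hy2 e => ((hK y2).1 hy2).2.1 (e ▸ (hsw y hy).1))
    (fun y hy Q hQ hyQ hzQ => by
      rcases (hK2 y).1 hy with ⟨c2, l2, rfl, h2, h3, h4⟩ | ⟨rfl, h5⟩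
      · rw [sw_tt] at hzQ ⊢
        have := hTT cj c2 l2 (by rw [hrow]; exact h3) hcj h2
          (fun e => h4 (by rw [hcj, h2, e])) Q
          (fun p1 n1 n2 => hQ (by rw [hU0, hG, hv, hv']; exact bulk_mem p q p1 n1 n2)) hzQ hyQ
        rw [← hv, ← hv', ← hG] at this
        rw [hf]
        simp only
        linarith
      · rw [sw_ww] at hzQ ⊢
        have := hlast Q hQ hyQ hzQ
        have h6 : 0 ≤ c0 * err X (Vt P) 3 := by positivity
        linarith)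
  have hy0K : ww q.1.2 ∈ K := (hK2 _).2 (Or.inr ⟨rfl, hjne⟩)
  have hmv2 := hmv (K.erase (ww q.1.2)) (Finset.erase_subset _ _)
  obtain ⟨Q, hQ⟩ : ∃ Q : Set (Vt P), Q = U0 ∪ sw p.1.2 cj '' (K.erase (ww q.1.2) : Finset (Vt P)) :=
    ⟨_, rfl⟩
  have e1 : U0 ∪ ((K : Set (Vt P)) \ (K.erase (ww q.1.2) : Finset (Vt P))) ∪
      sw p.1.2 cj '' (K.erase (ww q.1.2) : Finset (Vt P)) = insert (ww q.1.2) Q := by
    rw [hQ]
    ext u
    simp only [Set.mem_union, Set.mem_diff, Finset.mem_coe, Set.mem_insert_iff, Finset.mem_erase,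
      not_and, not_not]
    constructor
    · rintro ((hu | ⟨hu, hu'⟩) | hu)
      · exact Or.inr (Or.inl hu)
      · by_contra hne
        have : u ≠ ww q.1.2 := fun e => hne (Or.inl e)
        exact hu' this hu
      · exact Or.inr (Or.inr hu)
    · rintro (rfl | (hu | hu))
      · exact Or.inl (Or.inr ⟨hy0K, fun hn => absurd rfl hn⟩)
      · exact Or.inl (Or.inl hu)
      · exact Or.inr hu
  rw [e1] at hmv2
  have hQ1 : U0 ⊆ Q := by
    rw [hQ]
    exact Set.subset_union_left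
  have hy0Q : ww q.1.2 ∉ Q := by
    rw [hQ]
    rintro (hu | ⟨y, hy, hyu⟩)
    · rw [hU0] at hu
      exact ((hK _).1 hy0K).2.1 hu.2
    · have hyK := Finset.mem_of_mem_erase (Finset.mem_coe.1 hy)
      exact ((hK _).1 hy0K).2.1 (hyu ▸ (hsw y hyK).1)
  have hz0Q : ww p.1.2 ∉ Q := by
    rw [hQ]
    rintro (hu | ⟨y, hy, hyu⟩)
    · rw [hU0] at hu
      have := (hsw _ hy0K).2.1
      rw [sw_ww] at this
      exact this hu.1
    · have hy' := Finset.mem_coe.1 hy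
      have := hinj (Finset.mem_coe.2 (Finset.mem_of_mem_erase hy')) (Finset.mem_coe.2 hy0K)
        (hyu.trans (sw_ww _ _ _).symm)
      exact Finset.ne_of_mem_erase hy' this
  have hl := hlast Q hQ1 hy0Q hz0Q
  -- monotonicity
  have hmono : f (insert (ww p.1.2) Q) ≤ f (nb G v') := by
    rw [hf]
    apply (hSplit X (Vt P) F G v (E1 R ∅ v v')).1
    rintro w (hw | hw)
    · rw [hw]
      have := (hsw _ hy0K).1
      rw [sw_ww] at this
      exact this
    · rw [hQ] at hw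
      rcases hw with hw | ⟨y, hy, hyw⟩
      · rw [hU0] at hw
        exact hw.2
      · rw [← hyw]
        exact (hsw y (Finset.mem_of_mem_erase (Finset.mem_coe.1 hy))).1
  -- the neighbourhood of `v`
  have hnbv : f (nb G v) = f (U0 ∪ (K : Set (Vt P))) := by
    have hins : nb G v = insert v' (U0 ∪ (K : Set (Vt P))) := by
      ext u
      constructor
      · intro hu
        by_cases e : u = v'
        · exact Or.inl e
        by_cases hu' : u ∈ nb G v'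
        · exact Or.inr (Or.inl (by rw [hU0]; exact ⟨hu, hu'⟩))
        · exact Or.inr (Or.inr (Finset.mem_coe.2 ((hK u).2 ⟨hu, hu', e⟩)))
      · rintro (rfl | hu | hu)
        · rw [hG, hv, hv', mem_nb]
          exact ⟨fun e => hpq (bk_inj e), fun hn => hn⟩
        · rw [hU0] at hu
          exact hu.1
        · exact ((hK u).1 (Finset.mem_coe.1 hu)).1
    have hnot : v' ∉ U0 ∪ (K : Set (Vt P)) := by
      rintro (hu | hu)
      · rw [hU0] at hu
        exact G.loopless.irrefl _ hu.2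
      · exact ((hK v').1 (Finset.mem_coe.1 hu)).2.2 rfl
    have hs := (hSplit X (Vt P) F G v (E1 R ∅ v v')).2.1 (U0 ∪ (K : Set (Vt P))) v' hnot hvv.symm
    have hz : mu F (upd G v (insert v' (U0 ∪ (K : Set (Vt P)))))
        (fun φ => E1 R ∅ v v' φ ∧ Uses F v v' φ) = 0 := by
      have : homs F (upd G v (insert v' (U0 ∪ (K : Set (Vt P)))))
          (fun φ => E1 R ∅ v v' φ ∧ Uses F v v' φ) = ∅ := by
        rw [Set.eq_empty_iff_forall_notMem]
        rintro φ ⟨-, -, hE, x, y, -, -, hy⟩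
        exact hE.2.1 ⟨y, hy⟩
      unfold mu
      rw [this]
      simp
    rw [hf]
    simp only
    rw [hins, hs, hz, add_zero]
  have hcardK : K.card ≤ 2 * P.r := by
    have h3 : (K : Set (Vt P)) ⊆ insert (ww q.1.2) (Set.range fun l : Fin P.r => (tt cj' l : Vt P)) := by
      intro y hy
      rcases (hK2 y).1 (Finset.mem_coe.1 hy) with ⟨c2, l2, rfl, h2, h3, h4⟩ | ⟨rfl, h5⟩
      · right
        exact ⟨l2, by rw [show cj' = c2 from Fin.ext (hcj'.symm.trans h2)]⟩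
      · left; rfl
    have h4 := Set.ncard_le_ncard h3 (Set.toFinite _)
    rw [Set.ncard_coe_finset] at h4
    have h5 := Set.ncard_insert_le (ww q.1.2) (Set.range fun l : Fin P.r => (tt cj' l : Vt P))
    have h6 : (Set.range fun l : Fin P.r => (tt cj' l : Vt P)).ncard ≤ P.r := by
      rw [← Set.image_univ]
      refine (Set.ncard_image_le Set.finite_univ).trans ?_
      rw [Set.ncard_univ, Nat.card_fin]
    omega
  have hM0 : 0 ≤ M := by
    rw [hM]
    exact mul_nonneg (by positivity) (err_nonneg _ _ _)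
  have hcardE : ((K.erase (ww q.1.2)).card : ℝ) + 1 ≤ 2 * P.r := by
    have e2 : (K.erase (ww q.1.2)).card + 1 = K.card := Finset.card_erase_add_one hy0K
    have : (K.erase (ww q.1.2)).card + 1 ≤ 2 * P.r := by omega
    exact_mod_cast this
  have hKM : (((K.erase (ww q.1.2)).card : ℝ) + 1) * M ≤ (2 * P.r) * M :=
    mul_le_mul_of_nonneg_right hcardE hM0
  -- arithmetic
  have r1 : (A5 + 1) * P.r ^ 3 * B ≤ Nat.card (Vt P) := by
    calc (A5 + 1) * P.r ^ 3 * B = P.r * ((A5 + 1) * P.r ^ 2 * B) := by ring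
      _ ≤ P.r * (P.b * B) := Nat.mul_le_mul_left _ (Nat.mul_le_mul_right _
          ((Nat.mul_le_mul_right _ (by omega)).trans hOk.hb))
      _ ≤ P.r * P.m := Nat.mul_le_mul_left _ hbB
      _ ≤ Nat.card (Vt P) := by exact_mod_cast hrm
  have r2 : ((A5 : ℝ) + 1) * P.r ^ 3 * B ≤ Nat.card (Vt P) := by exact_mod_cast r1
  have e4 : err X (Vt P) 4 = err X (Vt P) 3 * (k / Nat.card (Vt P)) := by
    unfold err
    rw [hk, pow_succ]
  have key : (2 * P.r) * M + C1 * ((P.r : ℝ) ^ 2 * B) * err X (Vt P) 4 <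
      c0 * err X (Vt P) 3 := by
    have t1 : (2 * P.r) * M + C1 * ((P.r : ℝ) ^ 2 * B) * err X (Vt P) 4 ≤
        ((2 * (C2 + C3) + C1) * (P.r ^ 3 * B)) * err X (Vt P) 4 := by
      have t2 : C1 * ((P.r : ℝ) ^ 2 * B) ≤ C1 * (P.r ^ 3 * B) := by
        apply mul_le_mul_of_nonneg_left _ hC1.le
        apply mul_le_mul_of_nonneg_right _ (by positivity)
        exact pow_le_pow_right₀ hrR (by norm_num)
      have t3 := mul_le_mul_of_nonneg_right t2 (err_nonneg X (Vt P) 4)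
      have t4 : (2 * P.r) * M = (2 * (C2 + C3) * (P.r ^ 3 * B)) * err X (Vt P) 4 := by
        rw [hM]; ring
      rw [t4]
      linarith
    refine lt_of_le_of_lt t1 ?_
    rw [e4]
    have t5 : (2 * (C2 + C3) + C1) * (P.r ^ 3 * B) * (k / Nat.card (Vt P)) < c0 := by
      rw [mul_div_assoc', div_lt_iff₀ hnR]
      rw [div_lt_iff₀ hc0] at hA5
      calc (2 * (C2 + C3) + C1) * (P.r ^ 3 * B) * k = ((2 * (C2 + C3) + C1) * k) * (P.r ^ 3 * B) := by
            ring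
        _ < (c0 * (A5 + 1)) * (P.r ^ 3 * B) := by
            apply mul_lt_mul_of_pos_right _ (by positivity)
            nlinarith
        _ = c0 * ((A5 + 1) * P.r ^ 3 * B) := by ring
        _ ≤ c0 * Nat.card (Vt P) := mul_le_mul_of_nonneg_left r2 hc0.le
    calc _ = ((2 * (C2 + C3) + C1) * (P.r ^ 3 * B) * (k / Nat.card (Vt P))) * err X (Vt P) 3 := by
          ring
      _ < c0 * err X (Vt P) 3 := mul_lt_mul_of_pos_right t5 herr3
  have hE' : mu F G (E2 R ∅ v v') ≤ mu F G (E2 R ∅ v' v) +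
      C1 * ((P.r : ℝ) ^ 2 * B) * err X (Vt P) 4 := by
    rw [hG, hv, hv']
    exact hE
  rw [← hG, ← hv, ← hv']
  linarith

end Pool.Agent.K7.H62.UI
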